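import Mathlib

/-!
# A bounded tolerance graph that is not a max-tolerance graph

The complete bipartite graph `K_{3,3}` is a bounded tolerance graph (even a permutation graph: all
tolerances can be taken equal to the lengths of the intervals), but it is not a max-tolerance graph.

A vertex `v` with interval `[L v, R v]` and tolerance `t v` is described by the three numbers
`L v`, `- R v`, `t v`, with sum `- l v` where `l v ≥ 0` if `v` is not isolated.  Two vertices are
adjacent in a max-tolerance graph iff for each of the three coordinates `x` the intervals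
`[x v, x v + l v]` of the two vertices meet.  A coordinate which separates two vertices on one side
of `K_{3,3}` separates no two vertices on the other side; so the vertices on one of the two sides
are separated by a single coordinate, and this is impossible.
-/

set_option autoImplicit false

namespace Pool.Agent.Results.MP_78c384_co.KThreeThree

/-- The length of the intersection of the closed intervals `[a, b]` and `[c, d]` (where `a ≤ b` and
`c ≤ d`), taken as `0` if the intersection is empty. -/
noncomputable def overlap (a b c d : ℝ) : ℝ := max 0 (min b d - max a c)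

/-- `G` is a bounded tolerance graph: there are closed intervals `[L v, R v]` and tolerances
`0 < t v ≤ |[L v, R v]|` such that distinct vertices are adjacent iff the length of the intersection
of their intervals is at least the minimum of their tolerances. -/
def IsBoundedTolerance {V : Type} (G : SimpleGraph V) : Prop :=
  ∃ L R t : V → ℝ, (∀ v, L v ≤ R v) ∧ (∀ v, 0 < t v) ∧ (∀ v, t v ≤ R v - L v) ∧
    ∀ u v, u ≠ v → (G.Adj u v ↔ min (t u) (t v) ≤ overlap (L u) (R u) (L v) (R v))

/-- `G` is a max-tolerance graph: there are closed intervals `[L v, R v]` and tolerances `0 < t v`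
(which may exceed the length of the interval) such that distinct vertices are adjacent iff the
length of the intersection of their intervals is at least the maximum of their tolerances. -/
def IsMaxTolerance {V : Type} (G : SimpleGraph V) : Prop :=
  ∃ L R t : V → ℝ, (∀ v, L v ≤ R v) ∧ (∀ v, 0 < t v) ∧
    ∀ u v, u ≠ v → (G.Adj u v ↔ max (t u) (t v) ≤ overlap (L u) (R u) (L v) (R v))

/-! ### The core of the argument -/

section core

variable {x y z a u v w b : Fin 3 → ℝ}

/-- Three pairwise comparable elements can be sorted. -/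
lemma sort3 {r : Fin 3 → Fin 3 → Prop} (tr : ∀ i j k, r i j → r j k → r k i → False)
    (h : ∀ i j, i ≠ j → r i j ∨ r j i) : ∃ i j k, r i j ∧ r j k := by
  rcases h 0 1 (by decide) with h1 | h1 <;> rcases h 0 2 (by decide) with h2 | h2 <;>
    rcases h 1 2 (by decide) with h3 | h3
  · exact ⟨0, 1, 2, h1, h3⟩
  · exact ⟨0, 2, 1, h2, h3⟩
  · exact (tr 0 1 2 h1 h3 h2).elim
  · exact ⟨2, 0, 1, h2, h1⟩
  · exact ⟨1, 0, 2, h1, h2⟩
  · exact (tr 0 2 1 h2 h3 h1).elim
  · exact ⟨1, 2, 0, h3, h2⟩
  · exact ⟨2, 1, 0, h3, h1⟩

/-- Three cubes `(x i, y i, z i; a i)` and three cubes `(u j, v j, w j; b j)` whose coordinates have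
sums `- a i` and `- b j`; every cube of the first kind meets every cube of the second kind, the
cubes of the first kind are separated by the first coordinate and those of the second kind by one of
the two others.  This is impossible. -/
lemma core (ha : ∀ i, a i = -(x i + y i + z i)) (hb : ∀ j, b j = -(u j + v j + w j))
    (ha0 : ∀ i, 0 ≤ a i)
    (hx : ∀ i j, u j ≤ x i + a i ∧ x i ≤ u j + b j)
    (hy : ∀ i j, v j ≤ y i + a i ∧ y i ≤ v j + b j)
    (hz : ∀ i j, w j ≤ z i + a i ∧ z i ≤ w j + b j)
    (hA : ∀ i j, i ≠ j → x i + a i < x j ∨ x j + a j < x i)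
    (hB : ∀ i j, i ≠ j → (v i + b i < v j ∨ v j + b j < v i) ∨
      (w i + b i < w j ∨ w j + b j < w i)) : False := by
  obtain ⟨i1, i2, i3, h1, h2⟩ := sort3 (r := fun i j => x i + a i < x j)
    (fun i j k h1 h2 h3 => by have := ha0 i; have := ha0 j; have := ha0 k; linarith) hA
  have hab : x i1 + a i1 < x i3 := by have := ha0 i2; linarith
  obtain ⟨j1, j2, j3, k1, k2⟩ := sort3 (r := fun i j => -v i < x i1 + a i1 + w j)
    (fun i j k h1 h2 h3 => by
      have e1 := (hx i3 i).2; have e2 := (hx i3 j).2; have e3 := (hx i3 k).2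
      have f1 := hb i; have f2 := hb j; have f3 := hb k
      linarith) (fun i j hij => by
      have e1 := (hx i1 i).1; have e2 := (hx i1 j).1
      have f1 := hb i; have f2 := hb j
      rcases hB i j hij with (h | h) | (h | h)
      · right; linarith
      · left; linarith
      · left; linarith
      · right; linarith)
  have e2 := (hx i3 j2).2
  have m1 := (hy i2 j1).1
  have m3 := (hz i2 j3).1
  have f1 := hb j1; have f2 := hb j2; have f3 := hb j3
  have g1 := ha i1; have g2 := ha i2; have g3 := ha i3
  linarith

end core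

/-- A coordinate which separates two cubes of the first kind separates no two of the second kind. -/
lemma sep_excl {p q a b : Fin 3 → ℝ} (h : ∀ i j, q j ≤ p i + a i ∧ p i ≤ q j + b j)
    {i i' : Fin 3} (hi : p i + a i < p i') (j j' : Fin 3) : ¬ q j + b j < q j' := by
  intro hj
  have h1 := (h i j').1
  have h2 := (h i' j).2
  linarith

/-- No two triples of cubes realize `K_{3,3}`. -/
lemma no_rep {x y z a u v w b : Fin 3 → ℝ} (ha : ∀ i, a i = -(x i + y i + z i))
    (hb : ∀ j, b j = -(u j + v j + w j))
    (ha0 : ∀ i, 0 ≤ a i) (hb0 : ∀ j, 0 ≤ b j)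
    (hx : ∀ i j, u j ≤ x i + a i ∧ x i ≤ u j + b j)
    (hy : ∀ i j, v j ≤ y i + a i ∧ y i ≤ v j + b j)
    (hz : ∀ i j, w j ≤ z i + a i ∧ z i ≤ w j + b j)
    (hA : ∀ i j, i ≠ j → (x i + a i < x j ∨ x j + a j < x i) ∨
      (y i + a i < y j ∨ y j + a j < y i) ∨ (z i + a i < z j ∨ z j + a j < z i))
    (hB : ∀ i j, i ≠ j → (u i + b i < u j ∨ u j + b j < u i) ∨
      (v i + b i < v j ∨ v j + b j < v i) ∨ (w i + b i < w j ∨ w j + b j < w i)) : False := by
  have hx' : ∀ i j, x j ≤ u i + b i ∧ u i ≤ x j + a j := fun i j => ⟨(hx j i).2, (hx j i).1⟩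
  have hy' : ∀ i j, y j ≤ v i + b i ∧ v i ≤ y j + a j := fun i j => ⟨(hy j i).2, (hy j i).1⟩
  have hz' : ∀ i j, z j ≤ w i + b i ∧ w i ≤ z j + a j := fun i j => ⟨(hz j i).2, (hz j i).1⟩
  have xu : (∃ i j, x i + a i < x j) → ∀ i j, ¬ u i + b i < u j := by
    rintro ⟨i, j, h⟩ k l; exact sep_excl hx h k l
  have yv : (∃ i j, y i + a i < y j) → ∀ i j, ¬ v i + b i < v j := by
    rintro ⟨i, j, h⟩ k l; exact sep_excl hy h k l
  have zw : (∃ i j, z i + a i < z j) → ∀ i j, ¬ w i + b i < w j := by
    rintro ⟨i, j, h⟩ k l; exact sep_excl hz h k l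
  by_cases sx : ∃ i j, x i + a i < x j <;> by_cases sy : ∃ i j, y i + a i < y j <;>
    by_cases sz : ∃ i j, z i + a i < z j
  · -- all three: the second kind is not separated
    have h1 := xu sx; have h2 := yv sy; have h3 := zw sz
    rcases hB 0 1 (by decide) with (h | h) | (h | h) | (h | h)
    · exact h1 _ _ h
    · exact h1 _ _ h
    · exact h2 _ _ h
    · exact h2 _ _ h
    · exact h3 _ _ h
    · exact h3 _ _ h
  · -- x, y: the second kind is separated by the third coordinate
    have h1 := xu sx; have h2 := yv sy; push Not at sz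
    refine core (x := w) (y := u) (z := v) (a := b) (u := z) (v := x) (w := y) (b := a)
      (fun i => by rw [hb i]; ring) (fun i => by rw [ha i]; ring) hb0 hz' hx' hy' ?_ ?_
    · intro i j hij
      rcases hB i j hij with (h | h) | (h | h) | h
      · exact (h1 _ _ h).elim
      · exact (h1 _ _ h).elim
      · exact (h2 _ _ h).elim
      · exact (h2 _ _ h).elim
      · exact h
    · intro i j hij
      rcases hA i j hij with h | h | (h | h)
      · exact Or.inl h
      · exact Or.inr h
      · exact absurd h (not_lt.mpr (sz _ _))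
      · exact absurd h (not_lt.mpr (sz _ _))
  · -- x, z
    have h1 := xu sx; have h3 := zw sz; push Not at sy
    refine core (x := v) (y := u) (z := w) (a := b) (u := y) (v := x) (w := z) (b := a)
      (fun i => by rw [hb i]; ring) (fun i => by rw [ha i]; ring) hb0 hy' hx' hz' ?_ ?_
    · intro i j hij
      rcases hB i j hij with (h | h) | h | (h | h)
      · exact (h1 _ _ h).elim
      · exact (h1 _ _ h).elim
      · exact h
      · exact (h3 _ _ h).elim
      · exact (h3 _ _ h).elim
    · intro i j hij
      rcases hA i j hij with h | (h | h) | h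
      · exact Or.inl h
      · exact absurd h (not_lt.mpr (sy _ _))
      · exact absurd h (not_lt.mpr (sy _ _))
      · exact Or.inr h
  · -- only x
    have h1 := xu sx; push Not at sy sz
    refine core (x := x) (y := y) (z := z) (a := a) (u := u) (v := v) (w := w) (b := b)
      ha hb ha0 hx hy hz ?_ ?_
    · intro i j hij
      rcases hA i j hij with h | (h | h) | (h | h)
      · exact h
      · exact absurd h (not_lt.mpr (sy _ _))
      · exact absurd h (not_lt.mpr (sy _ _))
      · exact absurd h (not_lt.mpr (sz _ _))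
      · exact absurd h (not_lt.mpr (sz _ _))
    · intro i j hij
      rcases hB i j hij with (h | h) | h | h
      · exact (h1 _ _ h).elim
      · exact (h1 _ _ h).elim
      · exact Or.inl h
      · exact Or.inr h
  · -- y, z
    have h2 := yv sy; have h3 := zw sz; push Not at sx
    refine core (x := u) (y := v) (z := w) (a := b) (u := x) (v := y) (w := z) (b := a)
      hb ha hb0 hx' hy' hz' ?_ ?_
    · intro i j hij
      rcases hB i j hij with h | (h | h) | (h | h)
      · exact h
      · exact (h2 _ _ h).elim
      · exact (h2 _ _ h).elim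
      · exact (h3 _ _ h).elim
      · exact (h3 _ _ h).elim
    · intro i j hij
      rcases hA i j hij with (h | h) | h | h
      · exact absurd h (not_lt.mpr (sx _ _))
      · exact absurd h (not_lt.mpr (sx _ _))
      · exact Or.inl h
      · exact Or.inr h
  · -- only y
    have h2 := yv sy; push Not at sx sz
    refine core (x := y) (y := x) (z := z) (a := a) (u := v) (v := u) (w := w) (b := b)
      (fun i => by rw [ha i]; ring) (fun i => by rw [hb i]; ring) ha0 hy hx hz ?_ ?_
    · intro i j hij
      rcases hA i j hij with (h | h) | h | (h | h)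
      · exact absurd h (not_lt.mpr (sx _ _))
      · exact absurd h (not_lt.mpr (sx _ _))
      · exact h
      · exact absurd h (not_lt.mpr (sz _ _))
      · exact absurd h (not_lt.mpr (sz _ _))
    · intro i j hij
      rcases hB i j hij with h | (h | h) | h
      · exact Or.inl h
      · exact (h2 _ _ h).elim
      · exact (h2 _ _ h).elim
      · exact Or.inr h
  · -- only z
    have h3 := zw sz; push Not at sx sy
    refine core (x := z) (y := x) (z := y) (a := a) (u := w) (v := u) (w := v) (b := b)
      (fun i => by rw [ha i]; ring) (fun i => by rw [hb i]; ring) ha0 hz hx hy ?_ ?_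
    · intro i j hij
      rcases hA i j hij with (h | h) | (h | h) | h
      · exact absurd h (not_lt.mpr (sx _ _))
      · exact absurd h (not_lt.mpr (sx _ _))
      · exact absurd h (not_lt.mpr (sy _ _))
      · exact absurd h (not_lt.mpr (sy _ _))
      · exact h
    · intro i j hij
      rcases hB i j hij with h | h | (h | h)
      · exact Or.inl h
      · exact Or.inr h
      · exact (h3 _ _ h).elim
      · exact (h3 _ _ h).elim
  · -- none
    push Not at sx sy sz
    rcases hA 0 1 (by decide) with (h | h) | (h | h) | (h | h)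
    · exact absurd h (not_lt.mpr (sx _ _))
    · exact absurd h (not_lt.mpr (sx _ _))
    · exact absurd h (not_lt.mpr (sy _ _))
    · exact absurd h (not_lt.mpr (sy _ _))
    · exact absurd h (not_lt.mpr (sz _ _))
    · exact absurd h (not_lt.mpr (sz _ _))

/-! ### Translation -/

lemma le_overlap_iff {s t a b c d : ℝ} (hs : 0 < s) :
    max s t ≤ overlap a b c d ↔ s ≤ b - a ∧ s ≤ b - c ∧ s ≤ d - a ∧ s ≤ d - c ∧
      t ≤ b - a ∧ t ≤ b - c ∧ t ≤ d - a ∧ t ≤ d - c := by
  have h0 : (0 : ℝ) < max s t := lt_max_of_lt_left hs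
  have h1 : max s t ≤ overlap a b c d ↔ max s t ≤ min b d - max a c := by
    unfold overlap
    rw [le_max_iff]
    constructor
    · rintro (h | h)
      · linarith
      · exact h
    · exact Or.inr
  rw [h1]
  constructor
  · intro h
    have e1 := le_max_left s t; have e2 := le_max_right s t
    have e3 := min_le_left b d; have e4 := min_le_right b d
    have e5 := le_max_left a c; have e6 := le_max_right a c
    refine ⟨?_, ?_, ?_, ?_, ?_, ?_, ?_, ?_⟩ <;> linarith
  · rintro ⟨h1, h2, h3, h4, h5, h6, h7, h8⟩
    rcases max_choice s t with e | e <;> rcases max_choice a c with f | f <;>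
      rcases min_choice b d with g | g <;> rw [e, f, g] <;> assumption

lemma not_max : ¬ IsMaxTolerance (completeBipartiteGraph (Fin 3) (Fin 3)) := by
  rintro ⟨L, R, t, hLR, ht, h⟩
  have hadj : ∀ i j : Fin 3, (completeBipartiteGraph (Fin 3) (Fin 3)).Adj (Sum.inl i) (Sum.inr j) := by
    intro i j; simp
  have hnl : ∀ i j : Fin 3, ¬ (completeBipartiteGraph (Fin 3) (Fin 3)).Adj (Sum.inl i) (Sum.inl j) := by
    intro i j; simp
  have hnr : ∀ i j : Fin 3, ¬ (completeBipartiteGraph (Fin 3) (Fin 3)).Adj (Sum.inr i) (Sum.inr j) := by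
    intro i j; simp
  have hc : ∀ i j : Fin 3, _ := fun i j =>
    (le_overlap_iff (ht (Sum.inl i))).1 ((h (Sum.inl i) (Sum.inr j) (by simp)).1 (hadj i j))
  have ha0 : ∀ i : Fin 3, 0 ≤ R (Sum.inl i) - L (Sum.inl i) - t (Sum.inl i) := by
    intro i; have := (hc i 0).1; linarith
  have hb0 : ∀ i : Fin 3, 0 ≤ R (Sum.inr i) - L (Sum.inr i) - t (Sum.inr i) := by
    intro i; have := (hc 0 i).2.2.2.2.2.2.2; linarith
  have hsep : ∀ u v : Fin 3 ⊕ Fin 3, u ≠ v → ¬ (completeBipartiteGraph (Fin 3) (Fin 3)).Adj u v →
      0 ≤ R u - L u - t u → 0 ≤ R v - L v - t v →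
      (L u + (R u - L u - t u) < L v ∨ L v + (R v - L v - t v) < L u) ∨
      (-R u + (R u - L u - t u) < -R v ∨ -R v + (R v - L v - t v) < -R u) ∨
      (t u + (R u - L u - t u) < t v ∨ t v + (R v - L v - t v) < t u) := by
    intro u v huv hn h1 h2
    by_contra hcon
    push Not at hcon
    obtain ⟨⟨c1, c2⟩, ⟨c3, c4⟩, c5, c6⟩ := hcon
    apply hn
    rw [h u v huv, le_overlap_iff (ht u)]
    refine ⟨?_, ?_, ?_, ?_, ?_, ?_, ?_, ?_⟩ <;> linarith
  refine no_rep (x := fun i => L (Sum.inl i)) (y := fun i => -R (Sum.inl i))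
    (z := fun i => t (Sum.inl i)) (a := fun i => R (Sum.inl i) - L (Sum.inl i) - t (Sum.inl i))
    (u := fun i => L (Sum.inr i)) (v := fun i => -R (Sum.inr i))
    (w := fun i => t (Sum.inr i)) (b := fun i => R (Sum.inr i) - L (Sum.inr i) - t (Sum.inr i))
    (fun i => by ring) (fun i => by ring) ha0 hb0 ?_ ?_ ?_ ?_ ?_
  · intro i j
    obtain ⟨c1, c2, c3, c4, c5, c6, c7, c8⟩ := hc i j
    constructor <;> linarith
  · intro i j
    obtain ⟨c1, c2, c3, c4, c5, c6, c7, c8⟩ := hc i j
    constructor <;> linarith
  · intro i j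
    obtain ⟨c1, c2, c3, c4, c5, c6, c7, c8⟩ := hc i j
    constructor <;> linarith
  · intro i j hij
    exact hsep _ _ (by simpa using hij) (hnl i j) (ha0 i) (ha0 j)
  · intro i j hij
    exact hsep _ _ (by simpa using hij) (hnr i j) (hb0 i) (hb0 j)

lemma bounded : IsBoundedTolerance (completeBipartiteGraph (Fin 3) (Fin 3)) := by
  refine ⟨Sum.elim (fun i => (i : ℕ)) (fun j => 4 + (j : ℕ)),
    Sum.elim (fun i => 10 + (i : ℕ)) (fun j => 6 + (j : ℕ)), Sum.elim (fun _ => 10) (fun _ => 2),
    ?_, ?_, ?_, ?_⟩
  · rintro (i | i)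
    · simp only [Sum.elim_inl]; linarith
    · simp only [Sum.elim_inr]; linarith
  · rintro (i | i) <;> norm_num
  · rintro (i | i)
    · simp only [Sum.elim_inl]; linarith
    · simp only [Sum.elim_inr]; linarith
  · rintro (i | i) (j | j) hij
    · have hne : i ≠ j := by simpa using hij
      fin_cases i <;> fin_cases j <;> simp at hne <;> norm_num [overlap]
    · fin_cases i <;> fin_cases j <;> norm_num [overlap]
    · fin_cases i <;> fin_cases j <;> norm_num [overlap]
    · have hne : i ≠ j := by simpa using hij
      fin_cases i <;> fin_cases j <;> simp at hne <;> norm_num [overlap]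

/-- The complete bipartite graph `K_{3,3}` is a bounded tolerance graph but not a max-tolerance
graph. -/
theorem result : IsBoundedTolerance (completeBipartiteGraph (Fin 3) (Fin 3)) ∧
    ¬ IsMaxTolerance (completeBipartiteGraph (Fin 3) (Fin 3)) :=
  ⟨bounded, not_max⟩

end Pool.Agent.Results.MP_78c384_co.KThreeThree
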