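import Mathlib

/-!
# A bounded tolerance graph which is not a max-tolerance graph
-/

set_option autoImplicit false

open MeasureTheory

namespace Pool.Agent.Results.MP_78c384_co.NotMaxTolerance

/-- The length of the intersection of the closed intervals `[L, R]` and `[L', R']`. -/
noncomputable def interLen (L R L' R' : ℝ) : ℝ :=
  volume.real (Set.Icc L R ∩ Set.Icc L' R')

/-- Bounded tolerance graphs: closed intervals `I v = [L v, R v]` and tolerances `t v > 0` with
`t v ≤ |I v|`, and distinct vertices are adjacent if and only if the length of the intersection of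
their intervals is at least the minimum of their tolerances. -/
def IsBoundedTolerance {V : Type} (G : SimpleGraph V) : Prop :=
  ∃ L R t : V → ℝ, (∀ v, L v ≤ R v) ∧ (∀ v, 0 < t v) ∧ (∀ v, t v ≤ R v - L v) ∧
    ∀ x y, x ≠ y → (G.Adj x y ↔ min (t x) (t y) ≤ interLen (L x) (R x) (L y) (R y))

/-- Max-tolerance graphs: closed intervals `I v = [L v, R v]` and tolerances `t v > 0`, and
distinct vertices are adjacent if and only if the length of the intersection of their intervals is
at least the maximum of their tolerances. -/
def IsMaxTolerance {V : Type} (G : SimpleGraph V) : Prop :=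
  ∃ L R t : V → ℝ, (∀ v, L v ≤ R v) ∧ (∀ v, 0 < t v) ∧
    ∀ x y, x ≠ y → (G.Adj x y ↔ max (t x) (t y) ≤ interLen (L x) (R x) (L y) (R y))

lemma interLen_eq (L R L' R' : ℝ) :
    interLen L R L' R' = max (min R R' - max L L') 0 := by
  rw [interLen, Set.Icc_inter_Icc, Measure.real, Real.volume_Icc, ENNReal.toReal_ofReal']

/-- The complete 4-partite graph with parts of size two. -/
def cocktail : SimpleGraph (Fin 4 × Bool) where
  Adj x y := x.1 ≠ y.1
  symm := ⟨fun _ _ h => Ne.symm h⟩
  loopless := ⟨fun _ h => h rfl⟩

lemma bounded : IsBoundedTolerance cocktail := by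
  refine ⟨fun v => if v.2 then -(2 * (v.1 : ℝ) + 2) else -(2 * (v.1 : ℝ) + 2) - 1,
    fun v => if v.2 then 2 * (v.1 : ℝ) + 2 + 1 else 2 * (v.1 : ℝ) + 2,
    fun v => 4 * (v.1 : ℝ) + 5, ?_, ?_, ?_, ?_⟩
  · rintro ⟨i, b⟩
    have : (0 : ℝ) ≤ (i : ℝ) := by positivity
    cases b <;> simp <;> linarith
  · rintro ⟨i, b⟩
    have : (0 : ℝ) ≤ (i : ℝ) := by positivity
    dsimp only
    linarith
  · rintro ⟨i, b⟩
    have : (0 : ℝ) ≤ (i : ℝ) := by positivity
    cases b <;> simp <;> linarith
  · rintro ⟨i, a⟩ ⟨j, b⟩ hne
    rw [interLen_eq]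
    change i ≠ j ↔ _
    by_cases hij : i = j
    · subst hij
      have hab : a ≠ b := fun h => hne (by rw [h])
      refine iff_of_false (fun h => h rfl) ?_
      have : (0 : ℝ) ≤ (i : ℝ) := by positivity
      rw [not_le]
      rw [min_self, max_lt_iff]
      refine ⟨?_, by linarith⟩
      cases a <;> cases b
      · exact absurd rfl hab
      · simp only [Bool.false_eq_true, if_false, if_true]
        have e1 := min_le_left (2 * (i : ℝ) + 2) (2 * (i : ℝ) + 2 + 1)
        have e2 := le_max_right (-(2 * (i : ℝ) + 2) - 1) (-(2 * (i : ℝ) + 2))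
        linarith
      · simp only [Bool.false_eq_true, if_false, if_true]
        have e1 := min_le_right (2 * (i : ℝ) + 2 + 1) (2 * (i : ℝ) + 2)
        have e2 := le_max_left (-(2 * (i : ℝ) + 2)) (-(2 * (i : ℝ) + 2) - 1)
        linarith
      · exact absurd rfl hab
    · refine iff_of_true hij ?_
      rcases lt_or_gt_of_ne hij with h | h
      · have h1 : (i : ℝ) + 1 ≤ (j : ℝ) := by
          have : (i : ℕ) + 1 ≤ (j : ℕ) := h
          exact_mod_cast this
        have h0 : (0 : ℝ) ≤ (i : ℝ) := by positivity
        refine le_trans (min_le_left _ _) (le_trans ?_ (le_max_left _ _))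
        cases a <;> cases b <;> simp only [Bool.false_eq_true, if_false, if_true] <;>
          rw [min_eq_left (by linarith), max_eq_left (by linarith)] <;> linarith
      · have h1 : (j : ℝ) + 1 ≤ (i : ℝ) := by
          have : (j : ℕ) + 1 ≤ (i : ℕ) := h
          exact_mod_cast this
        have h0 : (0 : ℝ) ≤ (j : ℝ) := by positivity
        refine le_trans (min_le_right _ _) (le_trans ?_ (le_max_left _ _))
        cases a <;> cases b <;> simp only [Bool.false_eq_true, if_false, if_true] <;>
          rw [min_eq_right (by linarith), max_eq_right (by linarith)] <;> linarith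

lemma not_max : ¬ IsMaxTolerance cocktail := by
  rintro ⟨L, R, t, hLR, ht, hadj⟩
  -- the three coordinates
  let lo : Fin 3 → Fin 4 × Bool → ℝ := fun k v => ![L v, L v + t v, t v] k
  let hi : Fin 3 → Fin 4 × Bool → ℝ := fun k v => ![R v - t v, R v, R v - L v] k
  have hmeet : ∀ x y : Fin 4 × Bool, x.1 ≠ y.1 → ∀ k, lo k x ≤ hi k y := by
    intro x y hxy k
    have hne : x ≠ y := fun h => hxy (by rw [h])
    have h := (hadj x y hne).1 hxy
    rw [interLen_eq, le_max_iff] at h
    have htx := ht x
    have hty := ht y
    have h1 : max (t x) (t y) ≤ min (R x) (R y) - max (L x) (L y) := by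
      rcases h with h | h
      · exact h
      · exact absurd (lt_of_lt_of_le htx (le_trans (le_max_left _ _) h)) (lt_irrefl _)
    have a1 := le_max_left (t x) (t y)
    have a2 := le_max_right (t x) (t y)
    have a3 := min_le_left (R x) (R y)
    have a4 := min_le_right (R x) (R y)
    have a5 := le_max_left (L x) (L y)
    have a6 := le_max_right (L x) (L y)
    fin_cases k
    · change L x ≤ R y - t y
      linarith
    · change L x + t x ≤ R y
      linarith
    · change t x ≤ R y - L y
      linarith
  have hself : ∀ x : Fin 4 × Bool, t x ≤ R x - L x := by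
    intro x
    obtain ⟨y, hy⟩ : ∃ y : Fin 4 × Bool, x.1 ≠ y.1 := ⟨(x.1 + 1, true), by
      have : ∀ i : Fin 4, i ≠ i + 1 := by decide
      exact this x.1⟩
    have hne : x ≠ y := fun h => hy (by rw [h])
    have h := (hadj x y hne).1 hy
    rw [interLen_eq, le_max_iff] at h
    have htx := ht x
    have a1 := le_max_left (t x) (t y)
    have a3 := min_le_left (R x) (R y)
    have a5 := le_max_left (L x) (L y)
    rcases h with h | h
    · linarith
    · exact absurd (lt_of_lt_of_le htx (le_trans (le_max_left _ _) h)) (lt_irrefl _)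
  have hsep : ∀ i : Fin 4, ∃ k : Fin 3, ∃ b : Bool, hi k (i, b) < lo k (i, !b) := by
    intro i
    have hne : ((i, false) : Fin 4 × Bool) ≠ (i, true) := by
      intro h
      simp at h
    have h : ¬ max (t (i, false)) (t (i, true)) ≤
        interLen (L (i, false)) (R (i, false)) (L (i, true)) (R (i, true)) := fun h =>
      (hadj _ _ hne).2 h rfl
    rw [interLen_eq, not_le, max_lt_iff] at h
    have h1 := h.1
    have s1 := hself (i, false)
    have s2 := hself (i, true)
    by_contra hcon
    push Not at hcon
    have c1 := hcon 0 false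
    have c2 := hcon 0 true
    have c3 := hcon 1 false
    have c4 := hcon 1 true
    have c5 := hcon 2 false
    have c6 := hcon 2 true
    change L (i, true) ≤ R (i, false) - t (i, false) at c1
    change L (i, false) ≤ R (i, true) - t (i, true) at c2
    change L (i, true) + t (i, true) ≤ R (i, false) at c3
    change L (i, false) + t (i, false) ≤ R (i, true) at c4
    change t (i, true) ≤ R (i, false) - L (i, false) at c5
    change t (i, false) ≤ R (i, true) - L (i, true) at c6
    rcases max_choice (t (i, false)) (t (i, true)) with e1 | e1 <;>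
    rcases min_choice (R (i, false)) (R (i, true)) with e2 | e2 <;>
    rcases max_choice (L (i, false)) (L (i, true)) with e3 | e3 <;>
    · rw [e1, e2, e3] at h1
      linarith
  choose K b hb using hsep
  obtain ⟨i, j, hij, hK⟩ := Fintype.exists_ne_map_eq_of_card_lt K (by simp)
  have h1 := hb i
  have h2 := hb j
  rw [← hK] at h2
  have h3 := hmeet (i, !b i) (j, b j) hij (K i)
  have h4 := hmeet (j, !b j) (i, b i) (Ne.symm hij) (K i)
  linarith

/-- **Theorem.** There is a finite simple graph which is a bounded tolerance graph but not a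
max-tolerance graph. -/
theorem result : ∃ (V : Type) (_ : Fintype V) (G : SimpleGraph V),
    IsBoundedTolerance G ∧ ¬ IsMaxTolerance G :=
  ⟨Fin 4 × Bool, inferInstance, cocktail, bounded, not_max⟩

end Pool.Agent.Results.MP_78c384_co.NotMaxTolerance
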